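import Mathlib

/-! Definitions for the polygon maps of problem MP_c6a450_an. -/

namespace Pool.Agent.Lib.MP_c6a450_an

/-- The Euclidean plane. -/
abbrev Plane : Type := EuclideanSpace ℝ (Fin 2)

/-- The unit vector `v / |v|` in the direction of `v`. -/
noncomputable def dir (v : Plane) : Plane := ‖v‖⁻¹ • v

/-- The set of `n`-gons: cyclic `n`-tuples of points with consecutive vertices distinct. -/
def polygons (n : ℕ) : Set (ZMod n → Plane) := {P | ∀ i, P i ≠ P (i + 1)}

/-- Translation of a polygon by the vector `v`. -/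
noncomputable def translate {n : ℕ} (P : ZMod n → Plane) (v : Plane) : ZMod n → Plane :=
  fun i => P i + v

/-- The map `q_t`. -/
noncomputable def qMap {n : ℕ} (t : ℝ) (P : ZMod n → Plane) : ZMod n → Plane :=
  fun i => P i + t • dir (P i - P (i - 1))

/-- The map `r_t`. -/
noncomputable def rMap {n : ℕ} (t : ℝ) (P : ZMod n → Plane) : ZMod n → Plane :=
  fun i => P i + t • dir (P i - P (i + 1))

/-- `f_t` is defined at `R`: `t` is smaller than half of every side length of `R`. -/
def Admissible {n : ℕ} (t : ℝ) (R : ZMod n → Plane) : Prop :=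
  ∀ i, t < ‖R (i + 1) - R i‖ / 2

/-- The map `f_t = q_t ∘ r_t⁻¹`: `q_t` of a chosen `n`-gon `P` with `r_t P = R`
(for admissible `R` there is exactly one such `P`). -/
noncomputable def fMap {n : ℕ} (t : ℝ) (R : ZMod n → Plane) : ZMod n → Plane :=
  qMap t (Classical.epsilon fun P => P ∈ polygons n ∧ rMap t P = R)

end Pool.Agent.Lib.MP_c6a450_an
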