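import Pool.Agent.Lib.MP_c6a450_an.Defs

/-! Symbolic expressions in the unit edge vectors and inverse side lengths of a triangle. -/

namespace Pool.Agent.Lib.MP_c6a450_an

abbrev Tri : Type := ZMod 3 → Plane

inductive Ex : Type
  | u (i : Fin 3) (k : Fin 2) : Ex
  | s (i : Fin 3) : Ex
  | add (a b : Ex) : Ex
  | sub (a b : Ex) : Ex
  | mul (a b : Ex) : Ex

/-- edge vector -/
noncomputable def edge (P : Tri) (i : Fin 3) : Plane := P (i + 1 : Fin 3) - P i

noncomputable def Ex.eval : Ex → Tri → ℝ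
  | .u i k, P => ‖edge P i‖⁻¹ * edge P i k
  | .s i, P => ‖edge P i‖⁻¹
  | .add a b, P => a.eval P + b.eval P
  | .sub a b, P => a.eval P - b.eval P
  | .mul a b, P => a.eval P * b.eval P

/-- directional derivative, real semantics -/
noncomputable def Ex.evalD : Ex → Tri → Tri → ℝ
  | .u i k, P, w => (Ex.s i).eval P * (edge w i k - (Ex.u i k).eval P *
      ((Ex.u i 0).eval P * edge w i 0 + (Ex.u i 1).eval P * edge w i 1))
  | .s i, P, w => - ((Ex.s i).eval P * (Ex.s i).eval P *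
      ((Ex.u i 0).eval P * edge w i 0 + (Ex.u i 1).eval P * edge w i 1))
  | .add a b, P, w => a.evalD P w + b.evalD P w
  | .sub a b, P, w => a.evalD P w - b.evalD P w
  | .mul a b, P, w => a.evalD P w * b.eval P + a.eval P * b.evalD P w

noncomputable def edgeL (i : Fin 3) : Tri →L[ℝ] Plane :=
  (ContinuousLinearMap.proj (R := ℝ) (φ := fun _ : ZMod 3 => Plane) (i + 1 : Fin 3)) -
    (ContinuousLinearMap.proj (R := ℝ) (φ := fun _ : ZMod 3 => Plane) i)

lemma edgeL_apply (i : Fin 3) (P : Tri) : edgeL i P = edge P i := rfl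

noncomputable def edgeC (i : Fin 3) (k : Fin 2) : Tri →L[ℝ] ℝ :=
  (EuclideanSpace.proj k).comp (edgeL i)

lemma edgeC_apply (i : Fin 3) (k : Fin 2) (P : Tri) : edgeC i k P = edge P i k := rfl

lemma edge_ne {P : Tri} (hP : P ∈ polygons 3) (i : Fin 3) : edge P i ≠ 0 := by
  intro h
  have := hP i
  apply this
  unfold edge at h
  exact (sub_eq_zero.mp h).symm

lemma norm_edge (P : Tri) (i : Fin 3) :
    ‖edge P i‖ = Real.sqrt (edge P i 0 * edge P i 0 + edge P i 1 * edge P i 1) := by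
  rw [EuclideanSpace.norm_eq]
  congr 1
  simp [Fin.sum_univ_two, sq]

lemma hasFDerivAt_s {P : Tri} (hP : P ∈ polygons 3) (i : Fin 3) :
    ∃ L : Tri →L[ℝ] ℝ, HasFDerivAt (Ex.s i).eval L P ∧ ∀ w, L w = (Ex.s i).evalD P w := by
  have hne := edge_ne hP i
  have hpos : 0 < ‖edge P i‖ := norm_pos_iff.mpr hne
  have h0 : HasFDerivAt (fun P : Tri => edge P i 0) (edgeC i 0) P := (edgeC i 0).hasFDerivAt
  have h1 : HasFDerivAt (fun P : Tri => edge P i 1) (edgeC i 1) P := (edgeC i 1).hasFDerivAt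
  have hsq := (h0.mul h0).add (h1.mul h1)
  have hx : edge P i 0 * edge P i 0 + edge P i 1 * edge P i 1 ≠ 0 := by
    intro h
    rw [norm_edge, h] at hpos
    simp at hpos
  have hs := hsq.sqrt hx
  have hs' : Real.sqrt (edge P i 0 * edge P i 0 + edge P i 1 * edge P i 1) ≠ 0 := by
    rw [← norm_edge]; exact hpos.ne'
  have hi := (hasDerivAt_inv hs').comp_hasFDerivAt P hs
  refine ⟨_, hi.congr_of_eventuallyEq (Filter.Eventually.of_forall fun Q => ?_), fun w => ?_⟩
  · simp [Ex.eval, norm_edge]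
  · simp only [Ex.evalD, Ex.eval]
    simp only [smul_apply, add_apply, edgeC_apply,
      smul_eq_mul, Pi.add_apply, Pi.mul_apply]
    rw [← norm_edge]
    field_simp
    ring

lemma Ex.hasFDerivAt {P : Tri} (hP : P ∈ polygons 3) (e : Ex) :
    ∃ L : Tri →L[ℝ] ℝ, HasFDerivAt e.eval L P ∧ ∀ w, L w = e.evalD P w := by
  induction e with
  | u i k =>
    obtain ⟨L, hL, hw⟩ := hasFDerivAt_s hP i
    have hk : HasFDerivAt (fun P : Tri => edge P i k) (edgeC i k) P := (edgeC i k).hasFDerivAt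
    refine ⟨_, hL.mul hk, fun w => ?_⟩
    simp only [smul_apply, add_apply, edgeC_apply,
      smul_eq_mul, hw, Ex.evalD, Ex.eval]
    ring
  | s i => exact hasFDerivAt_s hP i
  | add a b iha ihb =>
    obtain ⟨La, ha, hwa⟩ := iha
    obtain ⟨Lb, hb, hwb⟩ := ihb
    exact ⟨_, ha.add hb, fun w => by simp [hwa, hwb, Ex.evalD]⟩
  | sub a b iha ihb =>
    obtain ⟨La, ha, hwa⟩ := iha
    obtain ⟨Lb, hb, hwb⟩ := ihb
    exact ⟨_, ha.sub hb, fun w => by simp [hwa, hwb, Ex.evalD]⟩
  | mul a b iha ihb =>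
    obtain ⟨La, ha, hwa⟩ := iha
    obtain ⟨Lb, hb, hwb⟩ := ihb
    refine ⟨_, ha.mul hb, fun w => ?_⟩
    simp only [smul_apply, add_apply, smul_eq_mul, hwa, hwb,
      Ex.evalD]
    ring

lemma Ex.differentiableAt {P : Tri} (hP : P ∈ polygons 3) (e : Ex) :
    DifferentiableAt ℝ e.eval P := by
  obtain ⟨L, hL, -⟩ := e.hasFDerivAt hP
  exact hL.differentiableAt

lemma Ex.fderiv_eq {P : Tri} (hP : P ∈ polygons 3) (e : Ex) (w : Tri) :
    fderiv ℝ e.eval P w = e.evalD P w := by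
  obtain ⟨L, hL, hw⟩ := e.hasFDerivAt hP
  rw [hL.fderiv, hw]

/-- symbolic vector fields -/
abbrev VF : Type := Fin 3 → Fin 2 → Ex

noncomputable def VF.eval (W : VF) (P : Tri) : Tri :=
  fun i => WithLp.toLp 2 (fun k => (W i k).eval P)

lemma VF.eval_apply (W : VF) (P : Tri) (i : Fin 3) (k : Fin 2) :
    W.eval P i k = (W i k).eval P := rfl

lemma VF.differentiableAt {P : Tri} (hP : P ∈ polygons 3) (W : VF) :
    DifferentiableAt ℝ W.eval P := by
  rw [differentiableAt_pi]
  intro i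
  rw [differentiableAt_euclidean]
  intro k
  exact (W i k).differentiableAt hP

lemma VF.fderiv_apply {P : Tri} (hP : P ∈ polygons 3) (W : VF) (w : Tri) (i : Fin 3) (k : Fin 2) :
    fderiv ℝ W.eval P w i k = (W i k).evalD P w := by
  let π : Tri →L[ℝ] ℝ := (EuclideanSpace.proj k).comp
    (ContinuousLinearMap.proj (R := ℝ) (φ := fun _ : ZMod 3 => Plane) i)
  have h := (π.hasFDerivAt.comp P (W.differentiableAt hP).hasFDerivAt).fderiv
  have h2 : (π ∘ W.eval) = (W i k).eval := rfl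
  rw [h2] at h
  rw [← Ex.fderiv_eq hP, h]
  rfl

/-- symbolic edge of a symbolic vector field -/
def VF.edge (W : VF) (i : Fin 3) (k : Fin 2) : Ex := .sub (W (i + 1) k) (W i k)

/-- symbolic directional derivative -/
def Ex.dd (W : VF) : Ex → Ex
  | .u i k => .mul (.s i) (.sub (W.edge i k) (.mul (.u i k)
      (.add (.mul (.u i 0) (W.edge i 0)) (.mul (.u i 1) (W.edge i 1)))))
  | .s i => .sub (.sub (.s i) (.s i)) (.mul (.mul (.s i) (.s i))
      (.add (.mul (.u i 0) (W.edge i 0)) (.mul (.u i 1) (W.edge i 1))))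
  | .add a b => .add (a.dd W) (b.dd W)
  | .sub a b => .sub (a.dd W) (b.dd W)
  | .mul a b => .add (.mul (a.dd W) b) (.mul a (b.dd W))

lemma VF.edge_eval (W : VF) (P : Tri) (i : Fin 3) (k : Fin 2) :
    (W.edge i k).eval P = Pool.Agent.Lib.MP_c6a450_an.edge (W.eval P) i k := rfl

lemma Ex.dd_eval (W : VF) (P : Tri) (e : Ex) : (e.dd W).eval P = e.evalD P (W.eval P) := by
  induction e with
  | u i k => simp only [Ex.dd, Ex.eval, Ex.evalD, VF.edge_eval]
  | s i => simp only [Ex.dd, Ex.eval, Ex.evalD, VF.edge_eval]; ring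
  | add a b iha ihb => simp only [Ex.dd, Ex.eval, Ex.evalD, iha, ihb]
  | sub a b iha ihb => simp only [Ex.dd, Ex.eval, Ex.evalD, iha, ihb]
  | mul a b iha ihb => simp only [Ex.dd, Ex.eval, Ex.evalD, iha, ihb]

/-- derivative of `V` in the direction `W` -/
def VF.dd (V W : VF) : VF := fun i k => (V i k).dd W

lemma VF.dd_eval {P : Tri} (hP : P ∈ polygons 3) (V W : VF) :
    (V.dd W).eval P = fderiv ℝ V.eval P (W.eval P) := by
  funext i
  ext k
  exact (Ex.dd_eval W P (V i k)).trans (VF.fderiv_apply hP V (W.eval P) i k).symm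

/-- symbolic Lie bracket -/
def VF.br (V W : VF) : VF := fun i k => .sub ((W i k).dd V) ((V i k).dd W)

lemma VF.br_eval {P : Tri} (hP : P ∈ polygons 3) (V W : VF) :
    (V.br W).eval P = VectorField.lieBracket ℝ V.eval W.eval P := by
  unfold VectorField.lieBracket
  rw [← VF.dd_eval hP, ← VF.dd_eval hP]
  rfl

/-- twice the field xi -/
def xiE : VF := fun i k => .add (.u (i + 2) k) (.u i k)
/-- gradient of the perimeter -/
def gE : VF := fun i k => .sub (.u (i + 2) k) (.u i k)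
def etaE : VF := xiE.dd gE
def z1E : VF := xiE.br etaE
def z2E : VF := xiE.br z1E
def z3E : VF := etaE.br z1E

end Pool.Agent.Lib.MP_c6a450_an
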