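import Pool.Agent.Lib.MP_c6a450_an.Num

/-! No translation-equivariant common integral of all the maps `f_t` for triangles. -/

namespace Pool.Agent.Lib.MP_c6a450_an

open Filter Topology Set

lemma norm_dir {v : Plane} (hv : v ≠ 0) : ‖dir v‖ = 1 := by
  unfold dir
  rw [norm_smul, norm_inv, norm_norm, inv_mul_cancel₀ (norm_ne_zero_iff.mpr hv)]

lemma dir_neg (v : Plane) : dir (-v) = - dir v := by
  unfold dir
  rw [norm_neg, smul_neg]

lemma norm_smul_dir {v : Plane} (hv : v ≠ 0) : ‖v‖ • dir v = v := by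
  unfold dir
  rw [smul_smul, mul_inv_cancel₀ (norm_ne_zero_iff.mpr hv), one_smul]

lemma unit_ineq {u u' : Plane} (hu : ‖u‖ = 1) (hu' : ‖u'‖ = 1) (α β : ℝ) :
    α * β * ‖u - u'‖ ^ 2 ≤ ‖α • u - β • u'‖ ^ 2 := by
  rw [norm_sub_sq_real, norm_sub_sq_real, norm_smul, norm_smul, hu, hu', inner_smul_left,
    inner_smul_right]
  simp only [Real.norm_eq_abs, mul_one, sq_abs, one_pow, conj_trivial]
  nlinarith [sq_nonneg (α - β)]

/-- `r_t` is injective on polygons. -/
lemma rMap_inj {n : ℕ} [NeZero n] {t : ℝ} (ht : 0 < t) {P P' : ZMod n → Plane}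
    (hP : P ∈ polygons n) (hP' : P' ∈ polygons n) (h : rMap t P = rMap t P') : P = P' := by
  have key : ∀ (Q : ZMod n → Plane), Q ∈ polygons n → ∀ i,
      Q i = rMap t Q i + t • dir (Q (i + 1) - Q i) := by
    intro Q _ i
    unfold rMap
    rw [← neg_sub (Q (i + 1)) (Q i), dir_neg]
    simp
  have key2 : ∀ (Q : ZMod n → Plane), Q ∈ polygons n → ∀ i,
      (‖Q (i + 1) - Q i‖ + t) • dir (Q (i + 1) - Q i) =
        (rMap t Q (i + 1) - rMap t Q i) + t • dir (Q (i + 1 + 1) - Q (i + 1)) := by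
    intro Q hQ i
    have hne : Q (i + 1) - Q i ≠ 0 := sub_ne_zero.mpr (hQ i).symm
    rw [add_smul, norm_smul_dir hne]
    have h1 := key Q hQ i
    have h2 := key Q hQ (i + 1)
    have h1' : rMap t Q i = Q i - t • dir (Q (i + 1) - Q i) := eq_sub_of_add_eq h1.symm
    have h2' : rMap t Q (i + 1) = Q (i + 1) - t • dir (Q (i + 1 + 1) - Q (i + 1)) :=
      eq_sub_of_add_eq h2.symm
    rw [h1', h2']
    abel
  set d : ZMod n → ℝ := fun i => ‖dir (P (i + 1) - P i) - dir (P' (i + 1) - P' i)‖ ^ 2 with hd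
  have step : ∀ i, (‖P (i + 1) - P i‖ + t) * (‖P' (i + 1) - P' i‖ + t) * d i ≤ t ^ 2 * d (i + 1) := by
    intro i
    have hne : P (i + 1) - P i ≠ 0 := sub_ne_zero.mpr (hP i).symm
    have hne' : P' (i + 1) - P' i ≠ 0 := sub_ne_zero.mpr (hP' i).symm
    have := unit_ineq (norm_dir hne) (norm_dir hne') (‖P (i + 1) - P i‖ + t)
      (‖P' (i + 1) - P' i‖ + t)
    rw [key2 P hP, key2 P' hP', h, add_sub_add_left_eq_sub, ← smul_sub, norm_smul, mul_pow,
      Real.norm_eq_abs, sq_abs] at this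
    exact this
  obtain ⟨i, hi⟩ := Finite.exists_max d
  have hdi : d i = 0 := by
    by_contra hne0
    have hnn : 0 ≤ d i := sq_nonneg _
    have hpos : 0 < d i := lt_of_le_of_ne hnn (Ne.symm hne0)
    have h1 : 0 < ‖P (i + 1) - P i‖ := norm_pos_iff.mpr (sub_ne_zero.mpr (hP i).symm)
    have h2 : 0 < ‖P' (i + 1) - P' i‖ := norm_pos_iff.mpr (sub_ne_zero.mpr (hP' i).symm)
    have h3 := step i
    have h4 := hi (i + 1)
    have h5 : t ^ 2 < (‖P (i + 1) - P i‖ + t) * (‖P' (i + 1) - P' i‖ + t) := by nlinarith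
    have h6 : t ^ 2 * d (i + 1) ≤ t ^ 2 * d i := mul_le_mul_of_nonneg_left h4 (sq_nonneg t)
    have h7 := mul_lt_mul_of_pos_right h5 hpos
    linarith
  funext j
  have hj : d j = 0 := le_antisymm (hdi ▸ hi j) (sq_nonneg _)
  have hj' : dir (P (j + 1) - P j) = dir (P' (j + 1) - P' j) := by
    have := pow_eq_zero_iff (two_ne_zero) |>.mp hj
    exact sub_eq_zero.mp (norm_eq_zero.mp this)
  rw [key P hP j, key P' hP' j, h, hj']

lemma fMap_rMap {n : ℕ} [NeZero n] {t : ℝ} (ht : 0 < t) {P : ZMod n → Plane}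
    (hP : P ∈ polygons n) : fMap t (rMap t P) = qMap t P := by
  unfold fMap
  have h := Classical.epsilon_spec
    (p := fun Q : ZMod n → Plane => Q ∈ polygons n ∧ rMap t Q = rMap t P) ⟨P, hP, rfl⟩
  rw [rMap_inj ht h.1 hP h.2]

noncomputable def fA (P : Tri) : Tri := fun i => dir (P i - P (i - 1))
noncomputable def fB (P : Tri) : Tri := fun i => dir (P i - P (i + 1))

lemma qMap_eq (t : ℝ) (P : Tri) : qMap t P = P + t • fA P := rfl
lemma rMap_eq (t : ℝ) (P : Tri) : rMap t P = P + t • fB P := rfl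

lemma fA_apply (P : Tri) (i : Fin 3) (k : Fin 2) : fA P i k = (Ex.u (i + 2) k).eval P := by
  fin_cases i <;> rfl

lemma fB_apply (P : Tri) (i : Fin 3) (k : Fin 2) : fB P i k = - (Ex.u i k).eval P := by
  have h : fB P i = - dir (edge P i) := by
    rw [← dir_neg]
    simp only [fB, edge, neg_sub]
    rfl
  rw [h]
  simp only [Ex.eval, dir]
  rfl

lemma xiE_eval (P : Tri) : xiE.eval P = fA P - fB P := by
  have h : ∀ (i : Fin 3) (k : Fin 2), (xiE i k).eval P = fA P i k - fB P i k := by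
    intro i k
    rw [fA_apply, fB_apply]
    simp [xiE, Ex.eval]
  funext i
  ext k
  exact h i k

lemma gE_eval (P : Tri) : gE.eval P = fA P + fB P := by
  have h : ∀ (i : Fin 3) (k : Fin 2), (gE i k).eval P = fA P i k + fB P i k := by
    intro i k
    rw [fA_apply, fB_apply]
    simp [gE, Ex.eval, sub_eq_add_neg]
  funext i
  ext k
  exact h i k

lemma right_zero {ψ : ℝ → Plane} {ψ' : Plane} (h : HasDerivAt ψ ψ' 0)
    (h0 : ∀ᶠ t in 𝓝[>] (0 : ℝ), ψ t = 0) : ψ 0 = 0 ∧ ψ' = 0 := by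
  have h1 : ψ 0 = 0 := by
    have ha : Tendsto ψ (𝓝[>] (0 : ℝ)) (𝓝 (ψ 0)) :=
      h.continuousAt.tendsto.mono_left nhdsWithin_le_nhds
    have hb : Tendsto ψ (𝓝[>] (0 : ℝ)) (𝓝 0) :=
      tendsto_const_nhds.congr' (h0.mono fun t ht => ht.symm)
    exact tendsto_nhds_unique ha hb
  refine ⟨h1, ?_⟩
  have h2 : HasDerivWithinAt ψ 0 (Ioi 0) 0 :=
    (hasDerivWithinAt_const (0 : ℝ) (Ioi (0 : ℝ)) (0 : Plane)).congr_of_eventuallyEq h0 h1
  exact (uniqueDiffWithinAt_Ioi (0 : ℝ)).eq_deriv _ h.hasDerivWithinAt h2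

lemma line_hasDerivAt (P w : Tri) (t : ℝ) : HasDerivAt (fun s : ℝ => P + s • w) w t := by
  simpa using ((hasDerivAt_id t).smul_const w).const_add P

section main

variable {U : Set Tri} {C : Tri → Plane}

lemma line_mem (hU : IsOpen U) {P : Tri} (hP : P ∈ U) (w : Tri) :
    ∀ᶠ t in 𝓝 (0 : ℝ), P + t • w ∈ U := by
  have h := (line_hasDerivAt P w 0).continuousAt
  apply h.eventually_mem
  simpa using hU.mem_nhds hP

lemma eventually_eq (hU : IsOpen U) (hsub : U ⊆ polygons 3)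
    (hf : ∀ t : ℝ, 0 < t → ∀ R ∈ U, Admissible t R → fMap t R ∈ U → C (fMap t R) = C R)
    {P : Tri} (hP : P ∈ U) :
    ∀ᶠ t in 𝓝[>] (0 : ℝ), C (P + t • fA P) = C (P + t • fB P) := by
  have hA := line_mem hU hP (fA P)
  have hB := line_mem hU hP (fB P)
  have hadm : ∀ᶠ t in 𝓝 (0 : ℝ), Admissible t (P + t • fB P) := by
    unfold Admissible
    rw [eventually_all]
    intro i
    have hc : ContinuousAt (fun t : ℝ => ‖(P + t • fB P) (i + 1) - (P + t • fB P) i‖ / 2) 0 := by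
      fun_prop
    apply ContinuousAt.eventually_lt continuousAt_id hc
    have : 0 < ‖P (i + 1) - P i‖ := norm_pos_iff.mpr (sub_ne_zero.mpr (hsub hP i).symm)
    simpa using this
  filter_upwards [nhdsWithin_le_nhds hA, nhdsWithin_le_nhds hB, nhdsWithin_le_nhds hadm,
    self_mem_nhdsWithin] with t h1 h2 h3 h4
  have h5 := fMap_rMap (n := 3) h4 (hsub hP)
  rw [rMap_eq, qMap_eq] at h5
  have h6 := hf t h4 _ h2 h3 (by rw [h5]; exact h1)
  rw [h5] at h6
  exact h6

lemma orders (hU : IsOpen U) (hC : ContDiffOn ℝ 2 C U) {P A B : Tri} (hP : P ∈ U)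
    (h : ∀ᶠ t in 𝓝[>] (0 : ℝ), C (P + t • A) = C (P + t • B)) :
    fderiv ℝ C P A - fderiv ℝ C P B = 0 ∧
      fderiv ℝ (fderiv ℝ C) P A A - fderiv ℝ (fderiv ℝ C) P B B = 0 := by
  have hCd : ∀ Q ∈ U, HasFDerivAt C (fderiv ℝ C Q) Q := fun Q hQ =>
    ((hC.contDiffAt (hU.mem_nhds hQ)).differentiableAt (by norm_num)).hasFDerivAt
  have hD : HasFDerivAt (fderiv ℝ C) (fderiv ℝ (fderiv ℝ C) P) P :=
    (((hC.contDiffAt (hU.mem_nhds hP)).fderiv_right (m := 1) (by norm_num)).differentiableAt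
      (by norm_num)).hasFDerivAt
  have hline : ∀ w : Tri, HasDerivAt (fun t : ℝ => fderiv ℝ C (P + t • w) w)
      (fderiv ℝ (fderiv ℝ C) P w w) 0 := by
    intro w
    have h1 : HasFDerivAt (fderiv ℝ C) (fderiv ℝ (fderiv ℝ C) P) (P + (0 : ℝ) • w) := by
      simpa using hD
    have h2 := h1.comp_hasDerivAt (0 : ℝ) (line_hasDerivAt P w 0)
    have h3 := h2.clm_apply (hasDerivAt_const (0 : ℝ) w)
    simpa using h3
  have hψ := (hline A).sub (hline B)
  have hall : ∀ᶠ t in 𝓝[>] (0 : ℝ), C (P + t • A) = C (P + t • B) ∧ P + t • A ∈ U ∧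
      P + t • B ∈ U := by
    filter_upwards [h, nhdsWithin_le_nhds (line_mem hU hP A),
      nhdsWithin_le_nhds (line_mem hU hP B)] with t h1 h2 h3 using ⟨h1, h2, h3⟩
  obtain ⟨ε, hε, hsub⟩ := mem_nhdsGT_iff_exists_Ioo_subset.mp hall
  have hzero : ∀ᶠ t in 𝓝[>] (0 : ℝ),
      ((fun t : ℝ => fderiv ℝ C (P + t • A) A) - fun t : ℝ => fderiv ℝ C (P + t • B) B) t = 0 := by
    filter_upwards [Ioo_mem_nhdsGT hε] with t ht
    have hA := (hCd _ (hsub ht).2.1).comp_hasDerivAt t (line_hasDerivAt P A t)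
    have hB := (hCd _ (hsub ht).2.2).comp_hasDerivAt t (line_hasDerivAt P B t)
    have hE : (C ∘ fun s : ℝ => P + s • A) =ᶠ[𝓝 t] (C ∘ fun s : ℝ => P + s • B) := by
      filter_upwards [Ioo_mem_nhds ht.1 ht.2] with s hs using (hsub hs).1
    have := hA.unique (hB.congr_of_eventuallyEq hE)
    simp [this]
  have := right_zero hψ hzero
  simpa using this

/-- `C` is infinitesimally invariant under the field `V` on `U`. -/
def Kills (U : Set Tri) (C : Tri → Plane) (V : VF) : Prop :=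
  ∀ P ∈ U, fderiv ℝ C P (V.eval P) = 0

lemma Kills.fderiv_zero (hU : IsOpen U) {V : VF} (hV : Kills U C V) {P : Tri} (hP : P ∈ U) :
    fderiv ℝ (fun x => fderiv ℝ C x (V.eval x)) P = 0 := by
  have : (fun x => fderiv ℝ C x (V.eval x)) =ᶠ[𝓝 P] fun _ => 0 := by
    filter_upwards [hU.mem_nhds hP] with Q hQ using hV Q hQ
  rw [this.fderiv_eq]
  simp

lemma Kills.br (hU : IsOpen U) (hsub : U ⊆ polygons 3) (hC : ContDiffOn ℝ 2 C U) {V W : VF}
    (hV : Kills U C V) (hW : Kills U C W) : Kills U C (V.br W) := by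
  intro P hP
  rw [VF.br_eval (hsub hP), VectorField.fderiv_apply_lieBracket (hC.contDiffAt (hU.mem_nhds hP))
    (by simp) (W.differentiableAt (hsub hP)) (V.differentiableAt (hsub hP)),
    hV.fderiv_zero hU hP, hW.fderiv_zero hU hP]
  simp

lemma kills_xi_eta (hU : IsOpen U) (hsub : U ⊆ polygons 3) (hC : ContDiffOn ℝ 2 C U)
    (hf : ∀ t : ℝ, 0 < t → ∀ R ∈ U, Admissible t R → fMap t R ∈ U → C (fMap t R) = C R) :
    Kills U C xiE ∧ Kills U C etaE := by
  have hxi : Kills U C xiE := by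
    intro P hP
    rw [xiE_eval, map_sub]
    exact (orders hU hC hP (eventually_eq hU hsub hf hP)).1
  refine ⟨hxi, fun P hP => ?_⟩
  have h2 := (orders hU hC hP (eventually_eq hU hsub hf hP)).2
  have hCP := hC.contDiffAt (hU.mem_nhds hP)
  have hD : HasFDerivAt (fderiv ℝ C) (fderiv ℝ (fderiv ℝ C) P) P :=
    ((hCP.fderiv_right (m := 1) (by norm_num)).differentiableAt (by norm_num)).hasFDerivAt
  have hsymm := hCP.isSymmSndFDerivAt (by simp)
  have h3 := (hD.clm_apply (xiE.differentiableAt (hsub hP)).hasFDerivAt).fderiv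
  rw [hxi.fderiv_zero hU hP] at h3
  have h4 := congrArg (fun L : Tri →L[ℝ] Plane => L (gE.eval P)) h3
  simp only [zero_apply, add_apply, ContinuousLinearMap.comp_apply,
    ContinuousLinearMap.flip_apply] at h4
  unfold etaE
  rw [VF.dd_eval (hsub hP)]
  have h5 : fderiv ℝ (fderiv ℝ C) P (gE.eval P) (xiE.eval P) = 0 := by
    rw [gE_eval, xiE_eval, map_add, add_apply, map_sub, map_sub, hsymm (fB P) (fA P), ← h2]
    abel
  rw [h5, add_zero] at h4
  exact h4.symm

lemma kills_fields (hU : IsOpen U) (hsub : U ⊆ polygons 3) (hC : ContDiffOn ℝ 2 C U)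
    (hf : ∀ t : ℝ, 0 < t → ∀ R ∈ U, Admissible t R → fMap t R ∈ U → C (fMap t R) = C R)
    (j : Fin 5) : Kills U C (fields j) := by
  obtain ⟨h1, h2⟩ := kills_xi_eta hU hsub hC hf
  have h3 : Kills U C z1E := h1.br hU hsub hC h2
  fin_cases j
  · exact h1
  · exact h2
  · exact h3
  · exact h1.br hU hsub hC h3
  · exact h2.br hU hsub hC h3

noncomputable def diagL : Plane →L[ℝ] Tri :=
  ContinuousLinearMap.pi fun _ => ContinuousLinearMap.id ℝ Plane

lemma fderiv_diag (hU : IsOpen U) (hC : ContDiffOn ℝ 2 C U)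
    (htr : ∀ P ∈ U, ∀ v : Plane, translate P v ∈ U → C (translate P v) = C P + v)
    {P : Tri} (hP : P ∈ U) (v : Plane) : fderiv ℝ C P (diagL v) = v := by
  have hCd : HasFDerivAt C (fderiv ℝ C P) (P + (0 : ℝ) • diagL v) := by
    simpa using ((hC.contDiffAt (hU.mem_nhds hP)).differentiableAt (by norm_num)).hasFDerivAt
  have h1 := hCd.comp_hasDerivAt (0 : ℝ) (line_hasDerivAt P (diagL v) 0)
  have h2 : HasDerivAt (fun s : ℝ => C P + s • v) v 0 := by
    simpa using ((hasDerivAt_id (0 : ℝ)).smul_const v).const_add (C P)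
  have hE : (C ∘ fun s : ℝ => P + s • diagL v) =ᶠ[𝓝 0] (fun s : ℝ => C P + s • v) := by
    filter_upwards [line_mem hU hP (diagL v)] with s hs
    exact htr P hP (s • v) hs
  exact h1.unique (h2.congr_of_eventuallyEq hE)

theorem no_center (hU : IsOpen U) (hsub : U ⊆ polygons 3) (hdense : polygons 3 ⊆ closure U)
    (hC : ContDiffOn ℝ 2 C U)
    (htr : ∀ P ∈ U, ∀ v : Plane, translate P v ∈ U → C (translate P v) = C P + v)
    (hf : ∀ t : ℝ, 0 < t → ∀ R ∈ U, Admissible t R → fMap t R ∈ U → C (fMap t R) = C R) :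
    False := by
  have hcont : ContinuousAt (fun P : Tri => fun j => (fields j).eval P) P0 :=
    continuousAt_pi.mpr fun j => ((fields j).differentiableAt P0_mem).continuousAt
  have hnhds : {P : Tri | LinearIndependent ℝ (fun j => (fields j).eval P)} ∈ 𝓝 P0 :=
    hcont.preimage_mem_nhds (isOpen_setOfPred_linearIndependent.mem_nhds indep_P0)
  obtain ⟨P, hP1, hP⟩ := mem_closure_iff_nhds.mp (hdense P0_mem) _ hnhds
  let D : Tri →ₗ[ℝ] Plane := (fderiv ℝ C P).toLinearMap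
  have hrange : LinearMap.range D = ⊤ := by
    rw [LinearMap.range_eq_top]
    intro v
    exact ⟨diagL v, fderiv_diag hU hC htr hP v⟩
  have hrank := LinearMap.finrank_range_add_finrank_ker D
  rw [hrange, finrank_top] at hrank
  have h6 : Module.finrank ℝ Tri = 6 := by
    rw [Module.finrank_pi_fintype]
    simp
  have h2 : Module.finrank ℝ Plane = 2 := by simp
  let w : Fin 5 → LinearMap.ker D := fun j => ⟨(fields j).eval P, kills_fields hU hsub hC hf j P hP⟩
  have hw : LinearIndependent ℝ w := LinearIndependent.of_comp (LinearMap.ker D).subtype hP1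
  have := hw.fintype_card_le_finrank
  simp only [Fintype.card_fin] at this
  omega

end main

end Pool.Agent.Lib.MP_c6a450_an
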