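import Pool.Agent.Lib.MP_c6a450_an.Ex

/-! Exact evaluation of the symbolic fields at the triangle with sides 4, 3, 5. -/

namespace Pool.Agent.Lib.MP_c6a450_an

def U0 : Fin 3 → Fin 2 → ℚ := ![![1, 0], ![0, 1], ![-4/5, -3/5]]
def S0 : Fin 3 → ℚ := ![1/4, 1/3, 1/5]

noncomputable def P0 : Tri := fun i => WithLp.toLp 2 ((![![0, 0], ![4, 0], ![4, 3]] : Fin 3 → Fin 2 → ℝ) i)

def Ex.evQ : Ex → ℚ
  | .u i k => U0 i k
  | .s i => S0 i
  | .add a b => a.evQ + b.evQ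
  | .sub a b => a.evQ - b.evQ
  | .mul a b => a.evQ * b.evQ

def Ex.evD (δ : Fin 3 → Fin 2 → ℚ) : Ex → ℚ
  | .u i k => S0 i * (δ i k - U0 i k * (U0 i 0 * δ i 0 + U0 i 1 * δ i 1))
  | .s i => - (S0 i * S0 i * (U0 i 0 * δ i 0 + U0 i 1 * δ i 1))
  | .add a b => a.evD δ + b.evD δ
  | .sub a b => a.evD δ - b.evD δ
  | .mul a b => a.evD δ * b.evQ + a.evQ * b.evD δ

def xiV : Fin 3 → Fin 2 → ℚ := ![![1/5, -3/5], ![1, 1], ![-4/5, 2/5]]
def etaV : Fin 3 → Fin 2 → ℚ := ![![3/125, -33/250], ![-1/15, -1/10], ![-16/375, -4/125]]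
def z1V : Fin 3 → Fin 2 → ℚ :=
  ![![219/3125, -209/6250], ![31/375, -13/250], ![682/9375, -192/3125]]
def z2V : Fin 3 → Fin 2 → ℚ :=
  ![![262/15625, 6049/93750], ![168/3125, 337/3750], ![1227/15625, 2912/46875]]
def z3V : Fin 3 → Fin 2 → ℚ :=
  ![![109/1562500, -3187/1562500], ![-2087/562500, -2339/562500], ![-22736/3515625, -4652/3515625]]

def dQ (v : Fin 3 → Fin 2 → ℚ) : Fin 3 → Fin 2 → ℚ := fun i k => v (i + 1) k - v i k

lemma xi_val : ∀ i k, (xiE i k).evQ = xiV i k := by decide +kernel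
lemma eta_val : ∀ i k, (etaE i k).evQ = etaV i k := by decide +kernel
lemma z1_val : ∀ i k, (z1E i k).evQ = z1V i k := by decide +kernel
lemma z2_val : ∀ i k, (z1E i k).evD (dQ xiV) - (xiE i k).evD (dQ z1V) = z2V i k := by
  decide +kernel
lemma z3_val : ∀ i k, (z1E i k).evD (dQ etaV) - (etaE i k).evD (dQ z1V) = z3V i k := by
  decide +kernel

lemma edge_P0 (i : Fin 3) (k : Fin 2) :
    edge P0 i k = ((![![4, 0], ![0, 3], ![-4, -3]] : Fin 3 → Fin 2 → ℝ) i k) := by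
  fin_cases i <;> fin_cases k <;> simp [edge, P0]

lemma norm_edge_P0 (i : Fin 3) : ‖edge P0 i‖ = ((![4, 3, 5] : Fin 3 → ℝ) i) := by
  rw [norm_edge, edge_P0, edge_P0]
  fin_cases i
  · rw [Real.sqrt_eq_iff_mul_self_eq (by simp) (by simp)]; simp
  · rw [Real.sqrt_eq_iff_mul_self_eq (by simp) (by simp)]; simp
  · rw [Real.sqrt_eq_iff_mul_self_eq (by norm_num) (by simp)]; simp; norm_num

lemma P0_mem : P0 ∈ polygons 3 := by
  intro i h
  have h1 : edge P0 i = 0 := by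
    unfold edge
    exact sub_eq_zero.mpr h.symm
  have h2 := norm_edge_P0 i
  rw [h1, norm_zero] at h2
  revert h2
  fin_cases i <;> simp

lemma s_P0 (i : Fin 3) : (Ex.s i).eval P0 = (S0 i : ℝ) := by
  simp only [Ex.eval, norm_edge_P0]
  fin_cases i <;> simp [S0]

lemma u_P0 (i : Fin 3) (k : Fin 2) : (Ex.u i k).eval P0 = (U0 i k : ℝ) := by
  simp only [Ex.eval, norm_edge_P0, edge_P0]
  fin_cases i <;> fin_cases k <;> simp [U0] <;> norm_num

lemma Ex.eval_P0 (e : Ex) : e.eval P0 = (e.evQ : ℝ) := by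
  induction e with
  | u i k => exact u_P0 i k
  | s i => exact s_P0 i
  | add a b iha ihb => simp only [Ex.eval, Ex.evQ, iha, ihb]; push_cast; ring
  | sub a b iha ihb => simp only [Ex.eval, Ex.evQ, iha, ihb]; push_cast; ring
  | mul a b iha ihb => simp only [Ex.eval, Ex.evQ, iha, ihb]; push_cast; ring

lemma Ex.evalD_P0 (δ : Fin 3 → Fin 2 → ℚ) (w : Tri) (hw : ∀ i k, edge w i k = (δ i k : ℝ))
    (e : Ex) : e.evalD P0 w = (e.evD δ : ℝ) := by
  induction e with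
  | u i k => simp only [Ex.evalD, Ex.evD, s_P0, u_P0, hw]; push_cast; ring
  | s i => simp only [Ex.evalD, Ex.evD, s_P0, u_P0, hw]; push_cast; ring
  | add a b iha ihb => simp only [Ex.evalD, Ex.evD, iha, ihb]; push_cast; ring
  | sub a b iha ihb => simp only [Ex.evalD, Ex.evD, iha, ihb]; push_cast; ring
  | mul a b iha ihb => simp only [Ex.evalD, Ex.evD, iha, ihb, Ex.eval_P0]; push_cast; ring

lemma edge_of_val (W : VF) (v : Fin 3 → Fin 2 → ℚ) (h : ∀ i k, (W i k).evQ = v i k)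
    (i : Fin 3) (k : Fin 2) : edge (W.eval P0) i k = (dQ v i k : ℝ) := by
  rw [← VF.edge_eval, Ex.eval_P0]
  simp only [VF.edge, Ex.evQ, h, dQ]

lemma br_P0 (V W : VF) (v w z : Fin 3 → Fin 2 → ℚ) (hv : ∀ i k, (V i k).evQ = v i k)
    (hw : ∀ i k, (W i k).evQ = w i k)
    (hz : ∀ i k, (W i k).evD (dQ v) - (V i k).evD (dQ w) = z i k) (i : Fin 3) (k : Fin 2) :
    (V.br W).eval P0 i k = (z i k : ℝ) := by
  rw [VF.eval_apply]
  simp only [VF.br, Ex.eval, Ex.dd_eval]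
  rw [Ex.evalD_P0 (dQ v) _ (edge_of_val V v hv), Ex.evalD_P0 (dQ w) _ (edge_of_val W w hw), ← hz]
  push_cast
  ring

/-- the five fields -/
def fields : Fin 5 → VF := ![xiE, etaE, z1E, z2E, z3E]

def fieldV : Fin 5 → Fin 3 → Fin 2 → ℚ := ![xiV, etaV, z1V, z2V, z3V]

lemma fields_P0 (j : Fin 5) (i : Fin 3) (k : Fin 2) :
    (fields j).eval P0 i k = (fieldV j i k : ℝ) := by
  fin_cases j
  · show xiE.eval P0 i k = (xiV i k : ℝ)
    rw [VF.eval_apply, Ex.eval_P0, xi_val]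
  · show etaE.eval P0 i k = (etaV i k : ℝ)
    rw [VF.eval_apply, Ex.eval_P0, eta_val]
  · show z1E.eval P0 i k = (z1V i k : ℝ)
    rw [VF.eval_apply, Ex.eval_P0, z1_val]
  · exact br_P0 xiE z1E xiV z1V z2V xi_val z1_val z2_val i k
  · exact br_P0 etaE z1E etaV z1V z3V eta_val z1_val z3_val i k

lemma indep_P0 : LinearIndependent ℝ (fun j => (fields j).eval P0) := by
  rw [Fintype.linearIndependent_iff]
  intro g hg
  have h : ∀ (i : Fin 3) (k : Fin 2), ∑ j, g j * (fieldV j i k : ℝ) = 0 := by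
    intro i k
    let π : Tri →L[ℝ] ℝ := (EuclideanSpace.proj k).comp
      (ContinuousLinearMap.proj (R := ℝ) (φ := fun _ : ZMod 3 => Plane) i)
    have hπ : ∀ j, π ((fields j).eval P0) = (fieldV j i k : ℝ) := fun j => fields_P0 j i k
    have := congrArg π hg
    simpa only [map_sum, map_smul, map_zero, smul_eq_mul, hπ] using this
  have h00 := h 0 0
  have h01 := h 0 1
  have h10 := h 1 0
  have h11 := h 1 1
  have h20 := h 2 0
  have h21 := h 2 1
  simp [Fin.sum_univ_five, fieldV, xiV, etaV, z1V, z2V, z3V] at h00 h01 h10 h11 h20 h21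
  intro j
  fin_cases j <;> simp <;> linarith

end Pool.Agent.Lib.MP_c6a450_an
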